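import Mathlib
import Pool.Agent.R9.Antimagic
import Pool.Agent.R9.AntimagicCerts

/-!
# The parameter `τ` is not subadditive

`G = C_9` and `H = K_{1,20}` have `τ(G) ≤ 22` and `τ(H) ≤ 41`, but `τ(G ∪ H) ≥ 64`.
-/

namespace Pool.Agent.Results.MP_567833_co.NotSubadditive

open Finset Pool.Agent.R9.AM

/-- `τ(G) = a`: the number `a` is the greatest `t` such that `G ∪ t' P_3` is antimagic for all
`0 ≤ t' ≤ t`. -/
def IsTau {V : Type} (G : SimpleGraph V) (a : ℕ) : Prop :=
  IsGreatest {t : ℕ | ∀ t' ≤ t, IsAntimagic (G ⊕g P3s t')} a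

lemma exists_isTau {V E : Type} [Fintype E] {G : SimpleGraph V} (e : EdgeEnum G E)
    (h : IsAntimagic (G ⊕g P3s 0)) : ∃ a, IsTau G a := by
  have hne : (tauSet G).Nonempty := by
    refine ⟨0, ?_⟩
    intro t' ht'
    have : t' = 0 := by omega
    subst this
    exact h
  have hb := tauSet_bddAbove e
  exact ⟨sSup (tauSet G), Nat.sSup_mem hne hb, fun s hs => le_csSup hb hs⟩

/-- `C_9` is antimagic. -/
lemma antimagic_C9 : IsAntimagic (SimpleGraph.cycleGraph 9) := by
  rw [EdgeEnum.isAntimagic_iff' edC]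
  refine ⟨![1, 3, 5, 7, 9, 8, 6, 4, 2], ?_, ?_⟩
  · apply bijOn_of_inj
    · decide
    · rw [Fintype.card_fin]
      decide
  · intro v w h
    rw [vs_edC, vs_edC] at h
    revert v w
    decide

/-- `K_{1,20}` is antimagic. -/
lemma antimagic_star : IsAntimagic (completeBipartiteGraph Unit (Fin 20)) := by
  rw [EdgeEnum.isAntimagic_iff' (edS 20)]
  refine ⟨fun i => i.1 + 1, ?_, ?_⟩
  · apply bijOn_of_inj
    · intro i j h
      simp only at h
      omega
    · intro i
      rw [Fintype.card_fin]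
      constructor
      · omega
      · omega
  · have hc : ∀ u : Unit, (edS 20).vs (fun i : Fin 20 => i.1 + 1) (Sum.inl u) = 210 := by
      rintro ⟨⟩
      rw [vs_edS_center]
      rfl
    rintro (u | i) (v | j) h
    · rfl
    · rw [hc, vs_edS_leaf] at h
      omega
    · rw [hc, vs_edS_leaf] at h
      omega
    · rw [vs_edS_leaf, vs_edS_leaf] at h
      congr 1
      omega

lemma not_antimagic_C9 : ¬ IsAntimagic (SimpleGraph.cycleGraph 9 ⊕g P3s 23) := by
  intro h
  have h1 := counting edC 23 Finset.univ Finset.univ 23 0 (by simp) (by simp)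
    (fun x hx => absurd (Finset.mem_univ x) hx) ?_ ?_ h
  · revert h1
    simp only [Fintype.card_fin]
    decide
  · intro v _ g hg
    rw [vs_edC]
    have := hg v
    omega
  · intro g
    simp only [vs_edC]
    rw [Finset.sum_add_distrib]
    have : ∑ x : Fin 9, g (x + 8) = ∑ x : Fin 9, g x :=
      Equiv.sum_comp (Equiv.addRight (8 : Fin 9)) g
    rw [this]
    omega

lemma not_antimagic_star :
    ¬ IsAntimagic (completeBipartiteGraph Unit (Fin 20) ⊕g P3s 42) := by
  intro h
  have h1 := counting (edS 20) 42 ∅ ∅ 42 20 (by simp) (by simp) ?_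
    (fun v hv => absurd hv (Finset.notMem_empty v)) (fun g => by simp) h
  · revert h1
    simp only [Fintype.card_fin]
    decide
  · intro x _
    exact ⟨Sum.inr x, Finset.notMem_empty _, fun g => vs_edS_leaf 20 g x⟩

/-- **Main theorem.**  There are antimagic graphs `G` and `H` with
`τ(G ∪ H) > τ(G) + τ(H)`. -/
theorem result : ∃ (V W : Type) (_ : Fintype V) (_ : Fintype W) (G : SimpleGraph V)
    (H : SimpleGraph W) (a b c : ℕ), IsAntimagic G ∧ IsAntimagic H ∧ IsTau G a ∧ IsTau H b ∧
    IsTau (G ⊕g H) c ∧ a + b < c := by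
  obtain ⟨a, ha⟩ := exists_isTau edC (antimagic_sum_zero edC antimagic_C9)
  obtain ⟨b, hb⟩ := exists_isTau (edS 20) (antimagic_sum_zero (edS 20) antimagic_star)
  obtain ⟨c, hc⟩ := exists_isTau edU (union_antimagic 0 (by norm_num))
  refine ⟨Fin 9, Unit ⊕ Fin 20, inferInstance, inferInstance, SimpleGraph.cycleGraph 9,
    completeBipartiteGraph Unit (Fin 20), a, b, c, antimagic_C9, antimagic_star, ha, hb, hc, ?_⟩
  have h1 : a < 23 := not_mem_tauSet not_antimagic_C9 a ha.1
  have h2 : b < 42 := not_mem_tauSet not_antimagic_star b hb.1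
  have h3 : 64 ≤ c := hc.2 (fun t' ht' => union_antimagic t' ht')
  omega

end Pool.Agent.Results.MP_567833_co.NotSubadditive
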